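import Mathlib

/-! Fejer kernel `K(w) = ((1 + w + .. + w^(n-1))/n)^L`: coefficients nonnegative, sum one, the
largest at least `1/(nL)`, small away from `w = 1`. -/

namespace MP7ed9c3.Tk

open Finset

/-- The polynomial `1 + X + ... + X^(n-1)` over the reals. -/
noncomputable def gsum (n : ℕ) : Polynomial ℝ := ∑ i ∈ range n, Polynomial.X ^ i

/-- Coefficients of the Fejer kernel. -/
noncomputable def al (n L : ℕ) (j : ℕ) : ℝ := ((gsum n) ^ L).coeff j / (n : ℝ) ^ L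

theorem gsum_coeff_nonneg (n i : ℕ) : 0 ≤ (gsum n).coeff i := by
  unfold gsum
  rw [Polynomial.finsetSum_coeff]
  refine Finset.sum_nonneg fun j _ => ?_
  rw [Polynomial.coeff_X_pow]
  split_ifs <;> norm_num

theorem pow_coeff_nonneg (n L : ℕ) : ∀ i, 0 ≤ ((gsum n) ^ L).coeff i := by
  induction L with
  | zero =>
    intro i
    rw [pow_zero, Polynomial.coeff_one]
    split_ifs <;> norm_num
  | succ L ih =>
    intro i
    rw [pow_succ, Polynomial.coeff_mul]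
    exact Finset.sum_nonneg fun p _ => mul_nonneg (ih _) (gsum_coeff_nonneg _ _)

theorem gsum_natDegree (n : ℕ) : (gsum n).natDegree ≤ n - 1 := by
  unfold gsum
  refine Polynomial.natDegree_sum_le_of_forall_le _ _ fun i hi => ?_
  rw [Polynomial.natDegree_X_pow]
  have := Finset.mem_range.mp hi
  omega

theorem pow_natDegree_lt {n L : ℕ} (hn : 1 ≤ n) (hL : 1 ≤ L) :
    ((gsum n) ^ L).natDegree < n * L := by
  have h1 : ((gsum n) ^ L).natDegree ≤ L * (n - 1) :=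
    le_trans Polynomial.natDegree_pow_le (Nat.mul_le_mul_left _ (gsum_natDegree n))
  have h2 : L * (n - 1) < n * L := by
    obtain ⟨k, rfl⟩ : ∃ k, n = k + 1 := ⟨n - 1, by omega⟩
    simp only [Nat.add_sub_cancel]
    nlinarith
  omega

theorem al_nonneg (n L j : ℕ) : 0 ≤ al n L j :=
  div_nonneg (pow_coeff_nonneg n L j) (by positivity)

theorem al_eq_zero {n L : ℕ} (hn : 1 ≤ n) (hL : 1 ≤ L) {j : ℕ} (hj : n * L ≤ j) :
    al n L j = 0 := by
  unfold al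
  rw [Polynomial.coeff_eq_zero_of_natDegree_lt (lt_of_lt_of_le (pow_natDegree_lt hn hL) hj),
    zero_div]

/-- The generating identity. -/
theorem sum_al {n L : ℕ} (hn : 1 ≤ n) (hL : 1 ≤ L) (w : ℂ) :
    ∑ j ∈ range (n * L), (al n L j : ℂ) * w ^ j = ((∑ i ∈ range n, w ^ i) / n) ^ L := by
  have h1 : Polynomial.aeval w ((gsum n) ^ L) = (∑ i ∈ range n, w ^ i) ^ L := by
    simp [gsum, map_sum]
  have h2 : Polynomial.aeval w ((gsum n) ^ L)
      = ∑ j ∈ range (n * L), ((((gsum n) ^ L).coeff j : ℝ) : ℂ) * w ^ j := by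
    rw [Polynomial.aeval_eq_sum_range' (pow_natDegree_lt hn hL)]
    exact Finset.sum_congr rfl fun j _ => by
      rw [Complex.real_smul]
  rw [div_pow, ← h1, h2, Finset.sum_div]
  refine Finset.sum_congr rfl fun j _ => ?_
  unfold al
  push_cast
  ring

theorem sum_al_real {n L : ℕ} (hn : 1 ≤ n) (hL : 1 ≤ L) :
    ∑ j ∈ range (n * L), al n L j = 1 := by
  have h := sum_al hn hL (1 : ℂ)
  have hn0 : (n : ℂ) ≠ 0 := by exact_mod_cast (by omega : n ≠ 0)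
  simp only [one_pow, mul_one, sum_const, card_range, nsmul_eq_mul] at h
  rw [div_self hn0, one_pow] at h
  exact_mod_cast h

theorem exists_large {n L : ℕ} (hn : 1 ≤ n) (hL : 1 ≤ L) :
    ∃ j, j < n * L ∧ 1 / ((n * L : ℕ) : ℝ) ≤ al n L j := by
  by_contra hcon
  push Not at hcon
  have hpos : 0 < n * L := Nat.mul_pos hn hL
  have h1 : ∑ j ∈ range (n * L), al n L j < ∑ _j ∈ range (n * L), 1 / ((n * L : ℕ) : ℝ) := by
    refine Finset.sum_lt_sum_of_nonempty ⟨0, Finset.mem_range.mpr hpos⟩ fun j hj => ?_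
    exact hcon j (Finset.mem_range.mp hj)
  rw [sum_al_real hn hL, sum_const, card_range, nsmul_eq_mul] at h1
  have h2 : ((n * L : ℕ) : ℝ) ≠ 0 := by exact_mod_cast hpos.ne'
  rw [mul_one_div_cancel h2] at h1
  exact lt_irrefl _ h1

theorem norm_gsum_le {n : ℕ} (hn : 1 ≤ n) {η : ℝ} {w : ℂ} (hw : ‖w‖ ≤ Real.exp η)
    (hη : (n : ℝ) * η ≤ 1 / 2) :
    ‖(∑ i ∈ range n, w ^ i) / (n : ℂ)‖ * ((n : ℝ) * ‖1 - w‖) ≤ 4 := by
  have hn0 : (0 : ℝ) < n := by exact_mod_cast hn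
  have h1 : (∑ i ∈ range n, w ^ i) * (1 - w) = 1 - w ^ n := by
    have := geom_sum_mul w n
    linear_combination -this
  have h2 : ‖w ^ n‖ ≤ 2 := by
    rw [norm_pow]
    calc ‖w‖ ^ n ≤ (Real.exp η) ^ n := pow_le_pow_left₀ (norm_nonneg _) hw n
      _ = Real.exp (n * η) := by rw [← Real.exp_nat_mul]
      _ ≤ Real.exp (1 / 2) := Real.exp_le_exp.mpr hη
      _ ≤ 2 := by
        have h3 : Real.exp (1 / 2) * Real.exp (1 / 2) = Real.exp 1 := by
          rw [← Real.exp_add]; norm_num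
        have h4 := Real.exp_one_lt_d9
        nlinarith [Real.exp_pos (1 / 2 : ℝ)]
  have h3 : ‖(∑ i ∈ range n, w ^ i) / (n : ℂ)‖ * ((n : ℝ) * ‖1 - w‖) = ‖1 - w ^ n‖ := by
    rw [norm_div, Complex.norm_natCast, ← h1, norm_mul]
    field_simp
  rw [h3]
  calc ‖1 - w ^ n‖ ≤ ‖(1 : ℂ)‖ + ‖w ^ n‖ := norm_sub_le _ _
    _ ≤ 1 + 2 := by rw [norm_one]; linarith
    _ ≤ 4 := by norm_num

/-- Smallness of the kernel away from `1`. -/
theorem norm_ker_le {n L : ℕ} (hn : 1 ≤ n) (hL : 1 ≤ L) {η : ℝ} {w : ℂ}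
    (hw : ‖w‖ ≤ Real.exp η) (hη : (n : ℝ) * η ≤ 1 / 2)
    (hfar : 4 * Real.exp 2 / (n : ℝ) ≤ ‖1 - w‖) :
    ‖∑ j ∈ range (n * L), (al n L j : ℂ) * w ^ j‖ ≤ Real.exp (-(2 * (L : ℝ))) := by
  have hn0 : (0 : ℝ) < n := by exact_mod_cast hn
  rw [sum_al hn hL, norm_pow]
  have h1 := norm_gsum_le hn hw hη
  have h2 : 4 * Real.exp 2 ≤ (n : ℝ) * ‖1 - w‖ := by
    rw [div_le_iff₀ hn0] at hfar
    linarith
  have h3 : ‖(∑ i ∈ range n, w ^ i) / (n : ℂ)‖ ≤ Real.exp (-2) := by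
    have h4 : ‖(∑ i ∈ range n, w ^ i) / (n : ℂ)‖ * (4 * Real.exp 2) ≤ 4 :=
      le_trans (mul_le_mul_of_nonneg_left h2 (norm_nonneg _)) h1
    have h5 : Real.exp (-2) * Real.exp 2 = 1 := by
      rw [← Real.exp_add]; norm_num
    have h6 := Real.exp_pos (2 : ℝ)
    by_contra hcon
    push Not at hcon
    nlinarith [mul_lt_mul_of_pos_right hcon h6]
  calc ‖(∑ i ∈ range n, w ^ i) / (n : ℂ)‖ ^ L ≤ (Real.exp (-2)) ^ L :=
        pow_le_pow_left₀ (norm_nonneg _) h3 L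
    _ = Real.exp (-(2 * (L : ℝ))) := by
        rw [← Real.exp_nat_mul]
        ring_nf

end MP7ed9c3.Tk
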